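import Pool.Agent.Helper40.LL.Rank

/-!
# The local zero-one law (helper40)
-/

set_option autoImplicit false

namespace Pool.Agent.Helper40.LL

open Polynomial Pool.Agent.Helper40.ZO MeasureTheory

variable {K V : Type*} [Field K] [AddCommGroup V] [Module K V] [FiniteDimensional K V]

omit [FiniteDimensional K V] in
theorem aeval_mem {A : Module.End K V} {U : Submodule K V} (hU : ∀ v ∈ U, A v ∈ U) (p : K[X]) :
    ∀ v ∈ U, aeval A p v ∈ U := by
  intro v hv
  have hpow : ∀ k : ℕ, ∀ v ∈ U, (A ^ k) v ∈ U := by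
    intro k
    induction k with
    | zero =>
      intro v hv
      rw [pow_zero, Module.End.one_apply]
      exact hv
    | succ k ih =>
      intro v hv
      rw [pow_succ, Module.End.mul_apply]
      exact ih _ (hU v hv)
  rw [aeval_eq_sum_range, LinearMap.sum_apply]
  refine U.sum_mem fun k _ => ?_
  rw [LinearMap.smul_apply]
  exact U.smul_mem _ (hpow k v hv)

/-- The representation on a stable subspace. -/
def subRep {G : Type*} [Group G] (ρ : G →* Module.End K V) (H : Subgroup G) (U : Submodule K V)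
    (h : ∀ g ∈ H, ∀ v ∈ U, ρ g v ∈ U) : H →* Module.End K U where
  toFun g := (ρ g).restrict (h g g.2)
  map_one' := by
    ext v
    rw [LinearMap.restrict_apply]
    change (ρ ((1 : H) : G)) (v : V) = v
    rw [Subgroup.coe_one, map_one, Module.End.one_apply]
  map_mul' g g' := by
    ext v
    rw [LinearMap.restrict_apply]
    change (ρ ((g * g' : H) : G)) (v : V) = ρ g (ρ g' v)
    rw [Subgroup.coe_mul, map_mul, Module.End.mul_apply]

omit [FiniteDimensional K V] in
theorem subRep_coe {G : Type*} [Group G] (ρ : G →* Module.End K V) (H : Subgroup G)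
    (U : Submodule K V) (h : ∀ g ∈ H, ∀ v ∈ U, ρ g v ∈ U) (g : H) (v : U) :
    ((subRep ρ H U h g v : U) : V) = ρ g v := rfl

/-- The restriction is semisimple under the whole group. -/
theorem subRep_semisimple {G : Type*} [Group G] (ρ : G →* Module.End K V) (H : Subgroup G)
    (U : Submodule K V) (h : ∀ g ∈ H, ∀ v ∈ U, ρ g v ∈ U)
    (hc : ∀ W : Submodule K V, W ≤ U → (∀ g ∈ H, ∀ v ∈ W, ρ g v ∈ W) →
      ∃ W' : Submodule K V, (∀ g ∈ H, ∀ v ∈ W', ρ g v ∈ W') ∧ IsCompl W W') :
    ActsSemisimply (subRep ρ H U h '' (Set.univ : Set H)) := by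
  intro W₁ hW₁
  obtain ⟨W', h1, h2⟩ := hc (W₁.map U.subtype) (by
    rintro _ ⟨v, -, rfl⟩
    exact v.2) (by
    rintro g hg _ ⟨v, hv, rfl⟩
    exact ⟨_, hW₁ _ ⟨⟨g, hg⟩, Set.mem_univ _, rfl⟩ v hv, rfl⟩)
  refine ⟨W'.comap U.subtype, ?_, ?_⟩
  · rintro _ ⟨g, -, rfl⟩ v hv
    exact h1 g g.2 _ hv
  · rw [isCompl_iff, disjoint_iff, codisjoint_iff]
    constructor
    · rw [eq_bot_iff]
      rintro v ⟨hv1, hv2⟩
      have h3 : (v : V) ∈ W₁.map U.subtype ⊓ W' := ⟨⟨v, hv1, rfl⟩, hv2⟩
      rw [h2.inf_eq_bot, Submodule.mem_bot] at h3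
      rw [Submodule.mem_bot]
      exact Subtype.ext h3
    · rw [eq_top_iff]
      intro v _
      obtain ⟨_, ⟨a, ha, rfl⟩, c, hc', hac⟩ := Submodule.mem_sup.1
        (show (v : V) ∈ W₁.map U.subtype ⊔ W' by rw [h2.sup_eq_top]; trivial)
      have hcU : c ∈ U := by
        have h3 : c = (v : V) - a := by
          rw [← hac]
          change c = (a : V) + c - a
          abel
        rw [h3]
        exact U.sub_mem v.2 a.2
      have h3 : v = a + ⟨c, hcU⟩ := Subtype.ext hac.symm
      rw [h3]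
      exact Submodule.add_mem_sup ha hc'

omit [FiniteDimensional K V] in
theorem subRep_continuous {P : Type*} [Group P] [TopologicalSpace P] [TopologicalSpace K]
    (ρ : P →* Module.End K V)
    (hρ : ∀ (v : V) (f : Module.Dual K V), Continuous fun x => f (ρ x v)) (H : Subgroup P)
    (U : Submodule K V) (h : ∀ g ∈ H, ∀ v ∈ U, ρ g v ∈ U) (v : U) (f : Module.Dual K U) :
    Continuous fun x : H => f (subRep ρ H U h x v) := by
  obtain ⟨f', hf'⟩ := LinearMap.exists_extend f
  have h1 : (fun x : H => f (subRep ρ H U h x v)) = fun x : H => f' (ρ x v) := by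
    funext x
    rw [← hf']
    rfl
  rw [h1]
  exact (hρ v f').comp continuous_subtype_val

variable [IsAlgClosed K] [CharZero K]

variable {P : Type*} [Group P] [TopologicalSpace P] [IsTopologicalGroup P] [CompactSpace P]
  [TotallyDisconnectedSpace P] [TopologicalSpace K] [IsTopologicalRing K] [T2Space K]

/-- The local law for one element. -/
theorem local_one (ρ : P →* Module.End K V)
    (hρ : ∀ (v : V) (f : Module.Dual K V), Continuous fun x => f (ρ x v)) :
    ∃ N : Subgroup P, N.Normal ∧ IsOpen (N : Set P) ∧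
      ∀ A : Subgroup P, A.Normal → ActsSemisimply (ρ '' (A : Set P)) →
        ∀ (x : P) (l : K), IsOpen ((A ⊔ Subgroup.zpowers x).topologicalClosure : Set P) →
          SSAt (ρ x) l →
          (∀ m : ℕ, (∀ g ∈ N, m ≤ (ρ (g * x)).charpoly.rootMultiplicity l) →
            ∀ g ∈ N, m ≤ Module.finrank K (Module.End.eigenspace (ρ (g * x)) l)) ∧
          ∀ ε : ℝ, 0 < ε → ∃ M : Subgroup P, M.Normal ∧ IsOpen (M : Set P) ∧
            ((Set.ncard {c : P ⧸ M | ∃ g ∈ N, ((g * x : P) : P ⧸ M) = c ∧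
              ¬ SSAt (ρ (g * x)) l} : ℕ) : ℝ) ≤ ε * Nat.card (P ⧸ M) := by
  classical
  obtain ⟨n, hn⟩ : ∃ n, n = Module.finrank K V := ⟨_, rfl⟩
  let b := Module.finBasisOfFinrankEq K V hn.symm
  let ρ' : P →* Mat n K := (LinearMap.toMatrixAlgEquiv b : Module.End K V →* Mat n K).comp ρ
  have hρ'x : ∀ x, ρ' x = LinearMap.toMatrix b b (ρ x) := fun x => rfl
  have hρ'c : Continuous ρ' := by
    refine continuous_matrix fun i j => ?_
    have h1 : (fun x => ρ' x i j) = fun x => (b.coord i) (ρ x (b j)) := by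
      funext x
      rw [hρ'x, LinearMap.toMatrix_apply]
      rfl
    rw [h1]
    exact hρ _ _
  have hvalc : ∀ f : MvPolynomial (Fin n × Fin n) K, Continuous fun y => val (ρ' y) f := by
    intro f
    have h1 : Continuous fun x : P => (fun k : Fin n × Fin n => ρ' x k.1 k.2) :=
      continuous_pi fun k => hρ'c.matrix_elem k.1 k.2
    exact (MvPolynomial.continuous_eval f).comp h1
  obtain ⟨N, hNn, hNo, hmin⟩ := exists_min ρ'
  borelize P
  let μ : Measure P := Measure.haarMeasure ⊤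
  have hnull := fun (D : MvPolynomial (Fin n × Fin n) K) (x₀ : P) (h : val (ρ' x₀) D ≠ 0) =>
    null_of_poly μ ρ' hρ'c hNo hmin (D := D) (x₀ := x₀) h
  refine ⟨N, hNn, hNo, ?_⟩
  intro A hAn hA x l hopen hss
  obtain ⟨H, hH⟩ : ∃ H : Subgroup P, H = (A ⊔ Subgroup.zpowers x).topologicalClosure := ⟨_, rfl⟩
  rw [← hH] at hopen
  have hAH : A ≤ H := by
    rw [hH]
    exact le_sup_left.trans (Subgroup.le_topologicalClosure _)
  have hxH : x ∈ H := by
    rw [hH]
    exact (le_sup_right.trans (Subgroup.le_topologicalClosure _)) (Subgroup.mem_zpowers x)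
  have hstab : ∀ W : Submodule K V, Stable (ρ '' (A : Set P)) W → (∀ v ∈ W, ρ x v ∈ W) →
      ∀ g ∈ H, ∀ v ∈ W, ρ g v ∈ W := by
    intro W h1 h2 g hg
    have h3 := stable_closure ρ hρ (stable_sup' ρ h1 (stable_zpowers ρ h2))
    refine h3 _ ⟨g, ?_, rfl⟩
    rw [← Subgroup.topologicalClosure_coe, ← hH]
    exact hg
  obtain ⟨V₁, V₂, h1A, h1x, h2A, h2x, hV, hsemi, hno⟩ := alg_dec ρ (A := A) (y := x)
    (fun a ha => by
      have := hAn.conj_mem a ha x⁻¹
      rwa [inv_inv] at this)
    (fun a ha => hAn.conj_mem a ha x) hA hss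
  have h1H := hstab V₁ h1A h1x
  have h2H := hstab V₂ h2A h2x
  obtain ⟨Q, hQ⟩ : ∃ Q : K[X], Q = (X - C l) ^ n := ⟨_, rfl⟩
  -- the minimum on `V₁` in the coset `(N ⊓ H) x`
  have hmin1 : ∀ m : ℕ, (∀ g ∈ N, m ≤ (ρ (g * x)).charpoly.rootMultiplicity l) →
      ∀ g ∈ N ⊓ H, m ≤ Module.finrank K
        (LinearMap.ker (aeval (ρ (g * x)) Q) ⊓ V₁ : Submodule K V) := by
    intro m hm g hg
    by_contra hlt
    push Not at hlt
    obtain ⟨E₁, hE1, hE1'⟩ := ker_open b Q V₁ (ρ (g * x))
    obtain ⟨E₂, hE2, hE2'⟩ := ker_open b Q V₂ (ρ x)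
    -- a common point
    obtain ⟨y, hy, hy1, hy2⟩ : ∃ y ∈ N ⊓ H, val (ρ' (y * x)) E₁ ≠ 0 ∧ val (ρ' (y * x)) E₂ ≠ 0 := by
      by_contra hcon
      push Not at hcon
      have h3 : {z : P | z * x⁻¹ ∈ N ⊓ H} ⊆
          {z | z * (g * x)⁻¹ ∈ N ∧ val (ρ' z) E₁ = 0} ∪ {z | z * x⁻¹ ∈ N ∧ val (ρ' z) E₂ = 0} := by
        intro z hz
        by_cases h4 : val (ρ' z) E₁ = 0
        · left
          refine ⟨?_, h4⟩
          have h5 : z * (g * x)⁻¹ = (z * x⁻¹) * g⁻¹ := by group
          rw [h5]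
          exact N.mul_mem hz.1 (N.inv_mem hg.1)
        · right
          refine ⟨hz.1, ?_⟩
          have h5 := hcon (z * x⁻¹) hz
          rw [inv_mul_cancel_right] at h5
          exact h5 h4
      have h4 : μ {z : P | z * x⁻¹ ∈ N ⊓ H} = 0 := measure_mono_null h3
        (measure_union_null (hnull E₁ (g * x) hE1) (hnull E₂ x hE2))
      have h5 : IsOpen {z : P | z * x⁻¹ ∈ N ⊓ H} :=
        (hNo.inter hopen).preimage (continuous_id.mul continuous_const)
      exact (h5.measure_pos μ ⟨x, by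
        rw [Set.mem_setOf_eq, mul_inv_cancel]
        exact (N ⊓ H).one_mem⟩).ne' h4
    have hyH : y * x ∈ H := H.mul_mem hy.2 hxH
    have h3 := hE1' _ hy1
    have h4 := hE2' _ hy2
    have h5 : (LinearMap.ker (aeval (ρ x) Q) ⊓ V₂ : Submodule K V) = ⊥ := by
      rw [eq_bot_iff]
      rintro v ⟨hv1, hv2⟩
      have h6 : ∀ k : ℕ, ∀ v ∈ V₂, aeval (ρ x) ((X - C l) ^ k) v = 0 → v = 0 := by
        intro k
        induction k with
        | zero =>
          intro v _ h0
          rwa [pow_zero, map_one, Module.End.one_apply] at h0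
        | succ k ih =>
          intro v hv h0
          rw [pow_succ, map_mul, Module.End.mul_apply] at h0
          have h7 : aeval (ρ x) (X - C l) v ∈ V₂ := aeval_mem h2x _ v hv
          have h8 := ih _ h7 h0
          rw [map_sub, aeval_X, aeval_C, LinearMap.sub_apply, Module.algebraMap_end_apply,
            sub_eq_zero] at h8
          exact hno v hv h8
      rw [Submodule.mem_bot]
      rw [hQ] at hv1
      exact h6 n v hv2 hv1
    rw [h5, finrank_bot] at h4
    have h6 := hm y hy.1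
    rw [mult_eq _ _ hn.ge, ← hQ, ker_split hV (aeval_mem (h1H _ hyH) Q)
      (aeval_mem (h2H _ hyH) Q)] at h6
    omega
  -- the inequality
  have hker : ∀ m : ℕ, (∀ g ∈ N, m ≤ (ρ (g * x)).charpoly.rootMultiplicity l) →
      ∀ g ∈ N, m ≤ Module.finrank K (Module.End.eigenspace (ρ (g * x)) l) := by
    intro m hm
    have hHcl : IsClosed (H : Set P) := Subgroup.isClosed_of_isOpen H hopen
    haveI : CompactSpace H := isCompact_iff_compactSpace.1 hHcl.isCompact
    -- first for the elements of `H`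
    have hfirst : ∀ g ∈ N ⊓ H, m ≤ Module.finrank K (Module.End.eigenspace (ρ (g * x)) l) := by
      intro g hg
      have hgx : g * x ∈ H := H.mul_mem hg.2 hxH
      have hBn : (N.subgroupOf H).Normal := Subgroup.normal_subgroupOf
      have hBo : IsOpen ((N.subgroupOf H : Subgroup H) : Set H) :=
        hNo.preimage continuous_subtype_val
      have hge := ker_ge (subRep ρ H V₁ h1H) (subRep_continuous ρ hρ H V₁ h1H)
        (subRep_semisimple ρ H V₁ h1H (by
          intro W hW1 hWH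
          obtain ⟨W', h3, h4, h5⟩ := hsemi W hW1
            (by
              rintro _ ⟨a, ha, rfl⟩
              exact hWH a (hAH ha)) (hWH x hxH)
          exact ⟨W', hstab W' h3 h4, h5⟩))
        (B := N.subgroupOf H) (x := ⟨g * x, hgx⟩)
        (Subgroup.isOpen_mono (le_sup_left.trans (Subgroup.le_topologicalClosure _)) hBo)
        (L := {l}) (m := m) (by
          rintro ⟨g', hg'⟩ hg''
          rw [Finset.sum_singleton]
          have h3 := hmin1 m hm (g' * g) ⟨N.mul_mem hg'' hg.1, H.mul_mem hg' hg.2⟩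
          have hmem : g' * (g * x) ∈ H := H.mul_mem hg' hgx
          have h4 := mult_restrict (A := ρ (g' * (g * x))) (h1H _ hmem) l hn.ge
          rw [← hQ] at h4
          have h5 : subRep ρ H V₁ h1H (⟨g', hg'⟩ * ⟨g * x, hgx⟩) =
              (ρ (g' * (g * x))).restrict (h1H _ hmem) := rfl
          rw [h5, h4, ← mul_assoc]
          exact h3)
      rw [Finset.sum_singleton] at hge
      refine hge.trans ?_
      have h3 : (Module.End.eigenspace (subRep ρ H V₁ h1H ⟨g * x, hgx⟩) l).map V₁.subtype ≤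
          Module.End.eigenspace (ρ (g * x)) l := by
        rintro _ ⟨v, hv, rfl⟩
        rw [SetLike.mem_coe, Module.End.mem_eigenspace_iff] at hv
        rw [Module.End.mem_eigenspace_iff]
        exact congrArg Subtype.val hv
      have h4 := Submodule.finrank_mono h3
      rwa [← LinearEquiv.finrank_eq (Submodule.equivMapOfInjective V₁.subtype
        V₁.injective_subtype _)] at h4
    -- the whole coset
    intro g hg
    by_contra hlt
    push Not at hlt
    obtain ⟨E, hE, hE'⟩ := ker_open b (X - C l) ⊤ (ρ (g * x))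
    have heig : ∀ z : P, (LinearMap.ker (aeval (ρ z) (X - C l)) ⊓ ⊤ : Submodule K V) =
        Module.End.eigenspace (ρ z) l := by
      intro z
      rw [inf_top_eq, map_sub, aeval_X, aeval_C, Module.End.eigenspace_def]
      rfl
    obtain ⟨E', hE''⟩ := exists_val_right (ρ' x) E
    have hvan : ∀ γ ∈ N, val (ρ' γ) E' = 0 := by
      refine hmin (N ⊓ H) (hNo.inter hopen) inf_le_left E' ?_
      intro γ hγ
      by_contra hne
      rw [hE'', ← map_mul] at hne
      have h3 := hE' _ hne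
      rw [heig, heig] at h3
      have h4 := hfirst γ hγ
      omega
    have h3 := hvan g hg
    rw [hE'', ← map_mul] at h3
    exact hE h3
  refine ⟨hker, ?_⟩
  intro ε hε
  -- the minimal multiplicity
  have hne : {m : ℕ | ∃ g ∈ N, (ρ (g * x)).charpoly.rootMultiplicity l = m}.Nonempty :=
    ⟨_, 1, N.one_mem, rfl⟩
  obtain ⟨g₀, hg₀, hg₀m⟩ := Nat.sInf_mem hne
  obtain ⟨m, hm⟩ : ∃ m, m = (ρ (g₀ * x)).charpoly.rootMultiplicity l := ⟨_, rfl⟩
  have hmle : ∀ g ∈ N, m ≤ (ρ (g * x)).charpoly.rootMultiplicity l := by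
    intro g hg
    rw [hm, hg₀m]
    exact Nat.sInf_le ⟨g, hg, rfl⟩
  obtain ⟨E, hE, hE'⟩ := ker_open b Q ⊤ (ρ (g₀ * x))
  have hgood : ∀ g ∈ N, val (ρ' (g * x)) E ≠ 0 → SSAt (ρ (g * x)) l := by
    intro g hg hne
    have h3 := hE' _ hne
    rw [inf_top_eq, inf_top_eq, hQ, ← mult_eq _ _ hn.ge, ← mult_eq _ _ hn.ge, ← hm] at h3
    have h4 := hker m hmle g hg
    have h5 : Module.End.eigenspace (ρ (g * x)) l ≤
        Module.End.maxGenEigenspace (ρ (g * x)) l :=
      (Module.End.genEigenspace (ρ (g * x)) l).monotone le_top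
    have h6 := Submodule.eq_of_le_of_finrank_le h5 (by
      rw [LinearMap.finrank_maxGenEigenspace_eq]
      omega)
    intro v hv
    have h7 : v ∈ Module.End.maxGenEigenspace (ρ (g * x)) l := by
      rw [Module.End.mem_maxGenEigenspace]
      exact ⟨2, hv⟩
    rw [← h6, Module.End.mem_eigenspace_iff] at h7
    rw [LinearMap.sub_apply, Module.algebraMap_end_apply, h7, sub_self]
  have hZcl : IsClosed {z : P | z * (g₀ * x)⁻¹ ∈ N ∧ val (ρ' z) E = 0} := by
    refine IsClosed.inter ?_ ?_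
    · exact (Subgroup.isClosed_of_isOpen _ hNo).preimage (continuous_id.mul continuous_const)
    · exact isClosed_eq (hvalc E) continuous_const
  obtain ⟨M, hM1, hM2, hM3⟩ := cosets_of_null μ hZcl (hnull E (g₀ * x) hE) hε
  refine ⟨M, hM1, hM2, le_trans ?_ hM3⟩
  haveI : Finite (P ⧸ M) := Subgroup.quotient_finite_of_isOpen M hM2
  refine Nat.cast_le.2 (Set.ncard_le_ncard ?_ (Set.toFinite _))
  rintro c ⟨g, hg, hgc, hns⟩
  refine ⟨g * x, ⟨?_, ?_⟩, hgc⟩
  · have h5 : g * x * (g₀ * x)⁻¹ = g * g₀⁻¹ := by group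
    rw [h5]
    exact N.mul_mem hg (N.inv_mem hg₀)
  · by_contra hne
    exact hns (hgood g hg hne)

end Pool.Agent.Helper40.LL
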