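import Pool.Agent.Helper40.ZO.Sum

/-!
# The local decomposition (helper40)

`V` is semisimple under `A`, `y` normalises `A`, and `y` is semisimple at the eigenvalue `l`. Then
`V = V₁ ⊕ V₂`, stable under `A` and `y`, such that every stable subspace of `V₁` has a stable complement
and `l` is not an eigenvalue of `y` on `V₂`.
-/

set_option autoImplicit false

namespace Pool.Agent.Helper40.LL

open Pool.Agent.Helper40.ZO

variable {K V : Type*} [Field K] [AddCommGroup V] [Module K V] [FiniteDimensional K V]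

/-- Every linear form on the commutant is given by the trace form. -/
theorem exists_trace_rep [CharZero K] {G : Type*} [Group G] (ρ : G →* Module.End K V)
    {A : Subgroup G} (hA : ActsSemisimply (ρ '' (A : Set G))) (φ : Module.End K V →ₗ[K] K) :
    ∃ T ∈ commutant ρ A, ∀ Y ∈ commutant ρ A, φ Y = LinearMap.trace K V (T * Y) := by
  let C := commutant ρ A
  let B : C →ₗ[K] Module.Dual K C :=
    { toFun := fun Z =>
        { toFun := fun Y => LinearMap.trace K V ((Z : Module.End K V) * (Y : Module.End K V))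
          map_add' := fun Y Y' => by
            rw [Submodule.coe_add, mul_add, map_add]
          map_smul' := fun r Y => by
            rw [Submodule.coe_smul, mul_smul_comm, map_smul, RingHom.id_apply] }
      map_add' := fun Z Z' => by
        ext Y
        change LinearMap.trace K V (((Z + Z' : C) : Module.End K V) * (Y : Module.End K V)) = _
        rw [Submodule.coe_add, add_mul, map_add]
        rfl
      map_smul' := fun r Z => by
        ext Y
        change LinearMap.trace K V (((r • Z : C) : Module.End K V) * (Y : Module.End K V)) = _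
        rw [Submodule.coe_smul, smul_mul_assoc, map_smul]
        rfl }
  have hinj : Function.Injective B := by
    rw [← LinearMap.ker_eq_bot, LinearMap.ker_eq_bot']
    intro Z hZ
    apply Subtype.ext
    refine commutant_nondeg ρ hA Z.2 ?_
    intro Y hY
    exact LinearMap.congr_fun hZ ⟨Y, hY⟩
  have hsurj : Function.Surjective B :=
    (LinearMap.injective_iff_surjective_of_finrank_eq_finrank
      (Subspace.dual_finrank_eq (K := K) (V := C)).symm).1 hinj
  obtain ⟨c, hc⟩ := hsurj (φ.comp C.subtype)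
  exact ⟨c, c.2, fun Y hY => (LinearMap.congr_fun hc ⟨Y, hY⟩).symm⟩

theorem mul_mem_commutant {G : Type*} [Group G] (ρ : G →* Module.End K V) {A : Subgroup G}
    {X Y : Module.End K V} (hX : X ∈ commutant ρ A) (hY : Y ∈ commutant ρ A) :
    X * Y ∈ commutant ρ A := by
  intro a ha
  rw [← mul_assoc, hX a ha, mul_assoc, hY a ha, mul_assoc]

theorem one_mem_commutant {G : Type*} [Group G] (ρ : G →* Module.End K V) {A : Subgroup G} :
    (1 : Module.End K V) ∈ commutant ρ A := by
  intro a _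
  rw [mul_one, one_mul]

theorem conj_mem_commutant {G : Type*} [Group G] (ρ : G →* Module.End K V) {A : Subgroup G}
    {y : G} (hy : ∀ a ∈ A, y⁻¹ * a * y ∈ A) {X : Module.End K V} (hX : X ∈ commutant ρ A) :
    ρ y * X * ρ y⁻¹ ∈ commutant ρ A := by
  intro a ha
  have h2 : y⁻¹ * a * y ∈ A := hy a ha
  have h3 : ρ a * ρ y = ρ y * ρ (y⁻¹ * a * y) := by
    rw [← map_mul, ← map_mul]
    congr 1
    group
  have h4 : ρ y⁻¹ * ρ a = ρ (y⁻¹ * a * y) * ρ y⁻¹ := by
    rw [← map_mul, ← map_mul]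
    congr 1
    group
  calc ρ a * (ρ y * X * ρ y⁻¹) = (ρ a * ρ y) * X * ρ y⁻¹ := by simp only [mul_assoc]
    _ = ρ y * (ρ (y⁻¹ * a * y) * X) * ρ y⁻¹ := by rw [h3]; simp only [mul_assoc]
    _ = ρ y * X * (ρ (y⁻¹ * a * y) * ρ y⁻¹) := by rw [hX _ h2]; simp only [mul_assoc]
    _ = ρ y * X * ρ y⁻¹ * ρ a := by rw [← h4]; simp only [mul_assoc]

theorem eq_of_trace [CharZero K] {G : Type*} [Group G] (ρ : G →* Module.End K V)
    {A : Subgroup G} (hA : ActsSemisimply (ρ '' (A : Set G))) {X X' : Module.End K V}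
    (hX : X ∈ commutant ρ A) (hX' : X' ∈ commutant ρ A)
    (h : ∀ Y ∈ commutant ρ A, LinearMap.trace K V (X * Y) = LinearMap.trace K V (X' * Y)) :
    X = X' := by
  refine sub_eq_zero.1 (commutant_nondeg ρ hA (Submodule.sub_mem _ hX hX') ?_)
  intro Y hY
  rw [sub_mul, map_sub, h Y hY, sub_self]

/-- If the trace of `(ρ y⁻¹ T ρ y - T) p` vanishes for all `T` in the commutant for which this
difference preserves `W`, then `W` has a stable complement. -/
theorem split_of_trace [CharZero K] {G : Type*} [Group G] (ρ : G →* Module.End K V)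
    {A : Subgroup G} {y : G} (hy : ∀ a ∈ A, y⁻¹ * a * y ∈ A) (hy' : ∀ a ∈ A, y * a * y⁻¹ ∈ A)
    (hA : ActsSemisimply (ρ '' (A : Set G))) {W : Submodule K V}
    (hWy : ∀ v ∈ W, ρ y v ∈ W) (hWy' : ∀ v ∈ W, ρ y⁻¹ v ∈ W) {p : Module.End K V}
    (hp : p ∈ commutant ρ A) (hp1 : ∀ v ∈ W, p v = v) (hpW : ∀ v, p v ∈ W)
    (htr : ∀ T ∈ commutant ρ A, (∀ v ∈ W, (ρ y⁻¹ * T * ρ y - T) v ∈ W) →
      LinearMap.trace K V ((ρ y⁻¹ * T * ρ y - T) * p) = 0) :
    ∃ W' : Submodule K V, Stable (ρ '' (A : Set G)) W' ∧ (∀ v ∈ W', ρ y v ∈ W') ∧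
      IsCompl W W' := by
  have hinv : ∀ g : G, ρ g * ρ g⁻¹ = 1 := fun g => by rw [← map_mul, mul_inv_cancel, map_one]
  have hinv' : ∀ g : G, ρ g⁻¹ * ρ g = 1 := fun g => by rw [← map_mul, inv_mul_cancel, map_one]
  have hinvv : ∀ (g : G) (v : V), ρ g (ρ g⁻¹ v) = v := fun g v => by
    rw [← Module.End.mul_apply, hinv, Module.End.one_apply]
  -- the linear map `θ - 1`
  let N : Submodule K (Module.End K V) :=
    { carrier := {X | X ∈ commutant ρ A ∧ (∀ v, X v ∈ W) ∧ ∀ v ∈ W, X v = 0}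
      add_mem' := by
        rintro X Y ⟨h1, h2, h3⟩ ⟨h4, h5, h6⟩
        refine ⟨add_mem h1 h4, fun v => ?_, fun v hv => ?_⟩
        · exact W.add_mem (h2 v) (h5 v)
        · rw [LinearMap.add_apply, h3 v hv, h6 v hv, add_zero]
      zero_mem' := ⟨zero_mem _, fun v => W.zero_mem, fun v _ => rfl⟩
      smul_mem' := by
        rintro r X ⟨h1, h2, h3⟩
        refine ⟨Submodule.smul_mem _ r h1, fun v => W.smul_mem r (h2 v), fun v hv => ?_⟩
        rw [LinearMap.smul_apply, h3 v hv, smul_zero] }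
  let Θ : Module.End K V →ₗ[K] Module.End K V :=
    { toFun := fun X => ρ y * X * ρ y⁻¹ - X
      map_add' := fun X Y => by
        rw [mul_add, add_mul]
        abel
      map_smul' := fun r X => by
        rw [mul_smul_comm, smul_mul_assoc, RingHom.id_apply, smul_sub] }
  have hΘ : ∀ X, Θ X = ρ y * X * ρ y⁻¹ - X := fun X => rfl
  have hz : Θ p ∈ N.map Θ := by
    by_contra hcon
    obtain ⟨φ, h1, h2⟩ := Submodule.exists_le_ker_of_notMem hcon
    apply h1
    obtain ⟨T, hT, hφ⟩ := exists_trace_rep ρ hA φ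
    have hΘC : ∀ X ∈ commutant ρ A, Θ X ∈ commutant ρ A := fun X hX =>
      Submodule.sub_mem _ (conj_mem_commutant ρ hy hX) hX
    have hr : ρ y⁻¹ * T * ρ y - T ∈ commutant ρ A := by
      refine Submodule.sub_mem _ ?_ hT
      have h3 := conj_mem_commutant ρ (y := y⁻¹) (by rwa [inv_inv]) hT
      rwa [inv_inv] at h3
    have hkey : ∀ X ∈ commutant ρ A, φ (Θ X) =
        LinearMap.trace K V ((ρ y⁻¹ * T * ρ y - T) * X) := by
      intro X hX
      rw [hφ _ (hΘC X hX), hΘ, mul_sub, sub_mul, map_sub, map_sub]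
      congr 1
      rw [show T * (ρ y * X * ρ y⁻¹) = (T * ρ y * X) * ρ y⁻¹ by simp only [mul_assoc],
        LinearMap.trace_mul_comm]
      simp only [mul_assoc]
    rw [hkey p hp]
    refine htr T hT ?_
    have h3 : (1 - p) * ((ρ y⁻¹ * T * ρ y - T) * p) = 0 := by
      refine commutant_nondeg ρ hA ?_ ?_
      · exact mul_mem_commutant ρ (Submodule.sub_mem _ (one_mem_commutant ρ) hp)
          (mul_mem_commutant ρ hr hp)
      · intro Y hY
        have h4 : p * Y * (1 - p) ∈ N := by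
          refine ⟨mul_mem_commutant ρ (mul_mem_commutant ρ hp hY)
            (Submodule.sub_mem _ (one_mem_commutant ρ) hp), fun v => hpW _, fun v hv => ?_⟩
          rw [Module.End.mul_apply, LinearMap.sub_apply, Module.End.one_apply, hp1 v hv, sub_self,
            map_zero]
        have h5 := h2 (Submodule.mem_map_of_mem (f := Θ) h4)
        rw [LinearMap.mem_ker, hkey _ h4.1] at h5
        rw [← h5, mul_assoc, LinearMap.trace_mul_comm]
        simp only [mul_assoc]
    intro v hv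
    have h4 := LinearMap.congr_fun h3 v
    rw [Module.End.mul_apply, Module.End.mul_apply, hp1 v hv, LinearMap.sub_apply,
      Module.End.one_apply, LinearMap.zero_apply, sub_eq_zero] at h4
    rw [h4]
    exact hpW _
  obtain ⟨X, ⟨hX1, hX2, hX3⟩, hX4⟩ := hz
  set f := p - X with hf
  have hfC : f ∈ commutant ρ A := Submodule.sub_mem _ hp hX1
  have hfW : ∀ v, f v ∈ W := fun v => W.sub_mem (hpW v) (hX2 v)
  have hf1 : ∀ v ∈ W, f v = v := by
    intro v hv
    rw [hf, LinearMap.sub_apply, hp1 v hv, hX3 v hv, sub_zero]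
  have hfy : ρ y * f = f * ρ y := by
    have h1 : ρ y * f * ρ y⁻¹ = f := by
      have h2 : Θ f = 0 := by rw [hf, map_sub, hX4, sub_self]
      rw [hΘ] at h2
      exact sub_eq_zero.1 h2
    calc ρ y * f = ρ y * f * (ρ y⁻¹ * ρ y) := by rw [hinv', mul_one]
      _ = (ρ y * f * ρ y⁻¹) * ρ y := by simp only [mul_assoc]
      _ = f * ρ y := by rw [h1]
  refine ⟨LinearMap.ker f, ?_, ?_, ?_⟩
  · rintro _ ⟨a, ha, rfl⟩ v hv
    rw [LinearMap.mem_ker] at hv ⊢
    have h1 := LinearMap.congr_fun (hfC a ha) v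
    rw [Module.End.mul_apply, Module.End.mul_apply, hv, map_zero] at h1
    exact h1.symm
  · intro v hv
    rw [LinearMap.mem_ker] at hv ⊢
    have h1 := LinearMap.congr_fun hfy v
    rw [Module.End.mul_apply, Module.End.mul_apply, hv, map_zero] at h1
    exact h1.symm
  · rw [isCompl_iff, disjoint_iff, codisjoint_iff]
    constructor
    · rw [eq_bot_iff]
      rintro v ⟨hv1, hv2⟩
      rw [Submodule.mem_bot, ← hf1 v hv1]
      exact hv2
    · rw [eq_top_iff]
      intro v _
      have h1 : v = f v + (v - f v) := by abel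
      rw [h1]
      refine Submodule.add_mem_sup (hfW v) ?_
      rw [LinearMap.mem_ker, map_sub, hf1 _ (hfW v), sub_self]

/-- The main trace computation. -/
theorem trace_zero [CharZero K] {G : Type*} [Group G] (ρ : G →* Module.End K V)
    {A : Subgroup G} {y : G} (hy : ∀ a ∈ A, y⁻¹ * a * y ∈ A) (hy' : ∀ a ∈ A, y * a * y⁻¹ ∈ A)
    {l : K} {e c q p T : Module.End K V} {W : Submodule K V}
    (hee : e * e = e) (he : e * ρ y = l • e) (he' : ρ y * e = l • e)
    (hce : ∀ Y ∈ commutant ρ A, LinearMap.trace K V (c * Y) = LinearMap.trace K V (e * Y))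
    (hq : q ∈ commutant ρ A) (hqe : q * e = e * q) (heW : ∀ v ∈ W, e v ∈ W)
    (hqW : ∀ v ∈ W, q v ∈ W) (hcq : ∀ v ∈ W, c (q v) = v) (hp : p ∈ commutant ρ A)
    (hp1 : ∀ v ∈ W, p v = v) (hpW : ∀ v, p v ∈ W) (hT : T ∈ commutant ρ A)
    (hr : ∀ v ∈ W, (ρ y⁻¹ * T * ρ y - T) v ∈ W) :
    LinearMap.trace K V ((ρ y⁻¹ * T * ρ y - T) * p) = 0 := by
  have hinv : ∀ g : G, ρ g * ρ g⁻¹ = 1 := fun g => by rw [← map_mul, mul_inv_cancel, map_one]
  obtain ⟨r, hrdef⟩ : ∃ r, r = ρ y⁻¹ * T * ρ y - T := ⟨_, rfl⟩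
  rw [← hrdef] at hr ⊢
  have hrC : r ∈ commutant ρ A := by
    rw [hrdef]
    refine Submodule.sub_mem _ ?_ hT
    have h3 := conj_mem_commutant ρ (y := y⁻¹) (by rwa [inv_inv]) hT
    rwa [inv_inv] at h3
  have hey : l • (e * ρ y⁻¹) = e := by
    rw [← smul_mul_assoc, ← he, mul_assoc, hinv, mul_one]
  have here : e * r * e = 0 := by
    rw [hrdef, mul_sub, sub_mul, sub_eq_zero]
    calc e * (ρ y⁻¹ * T * ρ y) * e = e * ρ y⁻¹ * T * (ρ y * e) := by simp only [mul_assoc]
      _ = (l • (e * ρ y⁻¹)) * T * e := by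
        rw [he', mul_smul_comm, smul_mul_assoc, smul_mul_assoc]
      _ = e * T * e := by rw [hey]
  have h1 : r * p = c * (q * (r * p)) := by
    ext v
    exact (hcq _ (hr _ (hpW v))).symm
  have hZC : q * (r * p) ∈ commutant ρ A :=
    mul_mem_commutant ρ hq (mul_mem_commutant ρ hrC hp)
  rw [h1, hce _ hZC]
  obtain ⟨Z, hZ⟩ : ∃ Z, Z = e * (q * (r * p)) := ⟨_, rfl⟩
  rw [← hZ]
  have h2 : e * Z = Z := by rw [hZ, ← mul_assoc, hee]
  have hZW : ∀ v, Z v ∈ W := by
    intro v
    rw [hZ]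
    exact heW _ (hqW _ (hr _ (hpW v)))
  have h3 : p * (Z * e) = Z * e := by
    ext v
    exact hp1 _ (hZW _)
  have h4 : p * (e * p) = e * p := by
    ext v
    exact hp1 _ (heW _ (hpW v))
  have h5 : Z * e * p = 0 := by
    calc Z * e * p = e * q * (r * (p * (e * p))) := by rw [hZ]; simp only [mul_assoc]
      _ = q * (e * r * e) * p := by rw [h4, ← hqe]; simp only [mul_assoc]
      _ = 0 := by rw [here, mul_zero, zero_mul]
  rw [← h2, LinearMap.trace_mul_comm, ← h3, LinearMap.trace_mul_comm, h5, map_zero]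

omit [FiniteDimensional K V] in
theorem disj_of_ss {D : Module.End K V} (h : ∀ v, D (D v) = 0 → D v = 0) :
    Disjoint (LinearMap.ker D) (LinearMap.range D) := by
  rw [disjoint_iff, eq_bot_iff]
  rintro _ ⟨h1, v, rfl⟩
  exact h v h1

theorem compl_of_ss {D : Module.End K V} (h : ∀ v, D (D v) = 0 → D v = 0) :
    IsCompl (LinearMap.ker D) (LinearMap.range D) := by
  refine ⟨disj_of_ss h, codisjoint_iff.2 (Submodule.eq_top_of_disjoint _ _ ?_ (disj_of_ss h))⟩
  rw [add_comm, LinearMap.finrank_range_add_finrank_ker]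

/-- On a stable subspace. -/
theorem dec_of_ss {D : Module.End K V} (h : ∀ v, D (D v) = 0 → D v = 0) {W : Submodule K V}
    (hW : ∀ v ∈ W, D v ∈ W) {v : V} (hv : v ∈ W) : ∃ a ∈ W, ∃ b ∈ W, D a = 0 ∧ a + D b = v := by
  have h1 : ∀ w : W, (D.restrict hW) ((D.restrict hW) w) = 0 → (D.restrict hW) w = 0 := by
    intro w hw
    have h2 : D (D (w : V)) = 0 := congrArg Subtype.val hw
    exact Subtype.ext (h _ h2)
  have h2 : (⟨v, hv⟩ : W) ∈ LinearMap.ker (D.restrict hW) ⊔ LinearMap.range (D.restrict hW) := by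
    rw [(compl_of_ss h1).sup_eq_top]
    trivial
  obtain ⟨a, ha, b', ⟨b, rfl⟩, hab⟩ := Submodule.mem_sup.1 h2
  refine ⟨a, a.2, b, b.2, ?_, ?_⟩
  · exact congrArg Subtype.val (LinearMap.mem_ker.1 ha)
  · exact congrArg Subtype.val hab

/-- The decomposition. -/
theorem alg_dec [CharZero K] {G : Type*} [Group G] (ρ : G →* Module.End K V)
    {A : Subgroup G} {y : G} (hy : ∀ a ∈ A, y⁻¹ * a * y ∈ A) (hy' : ∀ a ∈ A, y * a * y⁻¹ ∈ A)
    (hA : ActsSemisimply (ρ '' (A : Set G))) {l : K} (hss : SSAt (ρ y) l) :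
    ∃ V₁ V₂ : Submodule K V, Stable (ρ '' (A : Set G)) V₁ ∧ (∀ v ∈ V₁, ρ y v ∈ V₁) ∧
      Stable (ρ '' (A : Set G)) V₂ ∧ (∀ v ∈ V₂, ρ y v ∈ V₂) ∧ IsCompl V₁ V₂ ∧
      (∀ W : Submodule K V, W ≤ V₁ → Stable (ρ '' (A : Set G)) W → (∀ v ∈ W, ρ y v ∈ W) →
        ∃ W' : Submodule K V, Stable (ρ '' (A : Set G)) W' ∧ (∀ v ∈ W', ρ y v ∈ W') ∧
          IsCompl W W') ∧
      ∀ v ∈ V₂, ρ y v = l • v → v = 0 := by
  have hinv : ∀ g : G, ρ g * ρ g⁻¹ = 1 := fun g => by rw [← map_mul, mul_inv_cancel, map_one]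
  have hinv' : ∀ g : G, ρ g⁻¹ * ρ g = 1 := fun g => by rw [← map_mul, inv_mul_cancel, map_one]
  obtain ⟨D, hD⟩ : ∃ D : Module.End K V, D = ρ y - algebraMap K (Module.End K V) l := ⟨_, rfl⟩
  have hDv : ∀ v, D v = ρ y v - l • v := by
    intro v
    rw [hD, LinearMap.sub_apply, Module.algebraMap_end_apply]
  have hDss : ∀ v, D (D v) = 0 → D v = 0 := by
    intro v hv
    have h1 := hss v
    rw [← hD, pow_two] at h1
    exact h1 hv
  have hc := compl_of_ss hDss
  obtain ⟨e, he1, he0, heK, heR, hecomm⟩ := exists_projection hc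
  have hye : ρ y * e = l • e := by
    ext v
    have h1 := heK v
    rw [LinearMap.mem_ker, hDv, sub_eq_zero] at h1
    rw [Module.End.mul_apply, h1, LinearMap.smul_apply]
  have hey : e * ρ y = l • e := by
    ext v
    have h1 := he0 (D v) ⟨v, rfl⟩
    rw [hDv, map_sub, sub_eq_zero, map_smul] at h1
    rw [Module.End.mul_apply, h1, LinearMap.smul_apply]
  have hee : e * e = e := by
    ext v
    exact he1 _ (heK v)
  -- `e` preserves the subspaces stable under `y`
  have heW : ∀ W : Submodule K V, (∀ v ∈ W, ρ y v ∈ W) → ∀ v ∈ W, e v ∈ W := by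
    intro W hW v hv
    have hDW : ∀ v ∈ W, D v ∈ W := fun v hv => by
      rw [hDv]
      exact W.sub_mem (hW v hv) (W.smul_mem l hv)
    obtain ⟨a, ha, b, hb, hab, rfl⟩ := dec_of_ss hDss hDW hv
    rw [map_add, he1 a hab, he0 (D b) ⟨b, rfl⟩, add_zero]
    exact ha
  -- the commutant projection
  obtain ⟨c, hcC, hctr⟩ := exists_trace_proj ρ hA e
  have hcy : ρ y * c = c * ρ y := by
    have h5 : ρ y * c * ρ y⁻¹ = c := by
      refine eq_of_trace ρ hA (conj_mem_commutant ρ hy hcC) hcC ?_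
      intro Y hY
      have h6 : ρ y⁻¹ * Y * ρ y ∈ commutant ρ A := by
        have h3 := conj_mem_commutant ρ (y := y⁻¹) (by rwa [inv_inv]) hY
        rwa [inv_inv] at h3
      have h7 : ∀ X : Module.End K V, LinearMap.trace K V (ρ y * X * ρ y⁻¹ * Y) =
          LinearMap.trace K V (X * (ρ y⁻¹ * Y * ρ y)) := by
        intro X
        rw [show ρ y * X * ρ y⁻¹ * Y = ρ y * (X * (ρ y⁻¹ * Y)) by simp only [mul_assoc],
          LinearMap.trace_mul_comm]
        simp only [mul_assoc]
      have h8 : ρ y * e * ρ y⁻¹ = e := by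
        rw [hye, ← hey, mul_assoc, hinv, mul_one]
      rw [h7, hctr _ h6, ← h7, h8, hctr Y hY]
    calc ρ y * c = ρ y * c * (ρ y⁻¹ * ρ y) := by rw [hinv', mul_one]
      _ = ρ y * c * ρ y⁻¹ * ρ y := by simp only [mul_assoc]
      _ = c * ρ y := by rw [h5]
  have hcD : ∀ v, c (D v) = D (c v) := by
    intro v
    have h1 := LinearMap.congr_fun hcy v
    rw [Module.End.mul_apply, Module.End.mul_apply] at h1
    rw [hDv, hDv, map_sub, map_smul, h1]
  have hce : c * e = e * c := by
    refine hecomm c ?_ ?_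
    · intro v hv
      rw [LinearMap.mem_ker] at hv ⊢
      rw [← hcD, hv, map_zero]
    · rintro _ ⟨v, rfl⟩
      rw [hcD]
      exact ⟨_, rfl⟩
  -- Fitting
  obtain ⟨n, hn, hfit⟩ : ∃ n, 1 ≤ n ∧ IsCompl (LinearMap.ker (c ^ n)) (LinearMap.range (c ^ n)) := by
    obtain ⟨n, hn⟩ := Filter.eventually_atTop.1 (LinearMap.eventually_isCompl_ker_pow_range_pow c)
    exact ⟨max n 1, le_max_right _ _, hn _ (le_max_left _ _)⟩
  obtain ⟨V₁, hV₁⟩ : ∃ V₁, V₁ = LinearMap.range (c ^ n) := ⟨_, rfl⟩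
  obtain ⟨V₂, hV₂⟩ : ∃ V₂, V₂ = LinearMap.ker (c ^ n) := ⟨_, rfl⟩
  have hV : IsCompl V₁ V₂ := by
    rw [hV₁, hV₂]
    exact hfit.symm
  obtain ⟨π, hπ1, hπ0, hπV, hπR, hπcomm⟩ := exists_projection hV
  have hpres : ∀ s : Module.End K V, s * c = c * s →
      (∀ v ∈ V₁, s v ∈ V₁) ∧ ∀ v ∈ V₂, s v ∈ V₂ := by
    intro s hs
    have h1 : ∀ v, s ((c ^ n) v) = (c ^ n) (s v) := by
      intro v
      have h2 : s * c ^ n = c ^ n * s := (Commute.pow_right (hs : Commute s c) n).eq
      exact LinearMap.congr_fun h2 v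
    refine ⟨?_, ?_⟩
    · intro v hv
      rw [hV₁] at hv ⊢
      obtain ⟨u, rfl⟩ := hv
      exact ⟨s u, (h1 u).symm⟩
    · intro v hv
      rw [hV₂, LinearMap.mem_ker] at hv ⊢
      rw [← h1, hv, map_zero]
  have hcinj : ∀ v ∈ V₁, c v = 0 → v = 0 := by
    intro v hv h0
    have h1 : v ∈ V₂ := by
      rw [hV₂, LinearMap.mem_ker]
      obtain ⟨m, rfl⟩ : ∃ m, n = m + 1 := ⟨n - 1, by omega⟩
      rw [pow_succ, Module.End.mul_apply, h0, map_zero]
    have h2 : v ∈ V₁ ⊓ V₂ := ⟨hv, h1⟩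
    rwa [hV.inf_eq_bot, Submodule.mem_bot] at h2
  have hA1 : ∀ a ∈ A, (∀ v ∈ V₁, ρ a v ∈ V₁) ∧ ∀ v ∈ V₂, ρ a v ∈ V₂ := fun a ha =>
    hpres _ (hcC a ha)
  have hy1 := hpres (ρ y) hcy
  have he12 := hpres e hce.symm
  have hc12 := hpres c rfl
  have hπC : π ∈ commutant ρ A := fun a ha => hπcomm _ (hA1 a ha).1 (hA1 a ha).2
  have hπe : e * π = π * e := hπcomm _ he12.1 he12.2
  have hπc : c * π = π * c := hπcomm _ hc12.1 hc12.2
  -- the inverse of `c` on `V₁`
  obtain ⟨c', hc'⟩ : ∃ c' : Module.End K V, c' = c * π + (1 - π) := ⟨_, rfl⟩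
  have hc'v : ∀ v, c' v = c (π v) + (v - π v) := fun v => by rw [hc']; rfl
  have hc'inj : Function.Injective c' := by
    rw [← LinearMap.ker_eq_bot, LinearMap.ker_eq_bot']
    intro v hv
    rw [hc'v] at hv
    have h1 : c (π v) ∈ V₁ := hc12.1 _ (hπV v)
    have h2 : v - π v ∈ V₂ := hπR v
    have h3 : c (π v) = 0 := by
      have h4 : c (π v) ∈ V₁ ⊓ V₂ := ⟨h1, by
        rw [eq_neg_of_add_eq_zero_left hv]
        exact V₂.neg_mem h2⟩
      rwa [hV.inf_eq_bot, Submodule.mem_bot] at h4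
    have h4 := hcinj _ (hπV v) h3
    rw [h4, map_zero, zero_add, sub_zero] at hv
    exact hv
  obtain ⟨q, hq1, hq2⟩ : ∃ q : Module.End K V, q * c' = 1 ∧ c' * q = 1 := by
    let E := LinearEquiv.ofInjectiveEndo c' hc'inj
    refine ⟨E.symm, ?_, ?_⟩
    · ext v
      exact E.symm_apply_apply v
    · ext v
      exact E.apply_symm_apply v
  have hqcomm : ∀ s : Module.End K V, s * c' = c' * s → s * q = q * s := by
    intro s hs
    calc s * q = (q * c') * s * q := by rw [hq1, one_mul]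
      _ = q * (c' * s) * q := by simp only [mul_assoc]
      _ = q * s * (c' * q) := by rw [← hs]; simp only [mul_assoc]
      _ = q * s := by rw [hq2, mul_one]
  have hc'comm : ∀ s : Module.End K V, s * c = c * s → s * π = π * s → s * c' = c' * s := by
    intro s h1 h2
    rw [hc', mul_add, add_mul, mul_sub, sub_mul, mul_one, one_mul, h2, ← mul_assoc, h1,
      mul_assoc, h2, mul_assoc]
  have hqC : q ∈ commutant ρ A := fun a ha =>
    hqcomm _ (hc'comm _ (hcC a ha) (hπC a ha))
  have hqe : q * e = e * q := (hqcomm _ (hc'comm _ hce.symm hπe)).symm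
  refine ⟨V₁, V₂, ?_, hy1.1, ?_, hy1.2, hV, ?_, ?_⟩
  · rintro _ ⟨a, ha, rfl⟩
    exact (hA1 a ha).1
  · rintro _ ⟨a, ha, rfl⟩
    exact (hA1 a ha).2
  · intro W hW1 hWA hWy
    have hWy' : ∀ v ∈ W, ρ y⁻¹ v ∈ W := by
      have hinj : Function.Injective (ρ y) := by
        intro u v huv
        have h5 : ∀ w, ρ y⁻¹ (ρ y w) = w := by
          intro w
          have h6 := LinearMap.congr_fun (hinv' y) w
          rwa [Module.End.mul_apply] at h6
        rw [← h5 u, huv, h5]
      have hmap : W.map (ρ y) = W := by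
        refine Submodule.eq_of_le_of_finrank_eq ?_ ?_
        · rintro _ ⟨v, hv, rfl⟩
          exact hWy v hv
        · exact (LinearEquiv.finrank_eq (Submodule.equivMapOfInjective (ρ y) hinj W)).symm
      intro v hv
      rw [← hmap] at hv
      obtain ⟨u, hu, rfl⟩ := hv
      rw [← Module.End.mul_apply, hinv', Module.End.one_apply]
      exact hu
    obtain ⟨W'', hW'', hcW⟩ := hA W hWA
    obtain ⟨p, hp1, -, hpW, -, hpcomm⟩ := exists_projection hcW
    have hpC : p ∈ commutant ρ A := fun a ha =>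
      hpcomm _ (hWA _ ⟨a, ha, rfl⟩) (hW'' _ ⟨a, ha, rfl⟩)
    have heWW := heW W hWy
    -- `c` preserves `W`
    have hcWW : ∀ v ∈ W, c v ∈ W := by
      have h1 : (1 - p) * (c * p) = 0 := by
        refine commutant_nondeg ρ hA (mul_mem_commutant ρ
          (Submodule.sub_mem _ (one_mem_commutant ρ) hpC) (mul_mem_commutant ρ hcC hpC)) ?_
        intro Y hY
        have h2 : (1 - p) * (e * p) = 0 := by
          ext v
          rw [Module.End.mul_apply, LinearMap.sub_apply, Module.End.one_apply,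
            Module.End.mul_apply, hp1 _ (heWW _ (hpW v)), sub_self, LinearMap.zero_apply]
        have h3 : p * Y * (1 - p) ∈ commutant ρ A :=
          mul_mem_commutant ρ (mul_mem_commutant ρ hpC hY)
            (Submodule.sub_mem _ (one_mem_commutant ρ) hpC)
        have h4 : ∀ X : Module.End K V, LinearMap.trace K V ((1 - p) * (X * p) * Y) =
            LinearMap.trace K V (X * (p * Y * (1 - p))) := by
          intro X
          rw [mul_assoc, LinearMap.trace_mul_comm]
          simp only [mul_assoc]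
        rw [h4, hctr _ h3, ← h4, h2, zero_mul, map_zero]
      intro v hv
      have h4 := LinearMap.congr_fun h1 v
      rw [Module.End.mul_apply, Module.End.mul_apply, hp1 v hv, LinearMap.sub_apply,
        Module.End.one_apply, LinearMap.zero_apply, sub_eq_zero] at h4
      rw [h4]
      exact hpW _
    have hsurj : ∀ v ∈ W, ∃ u ∈ W, c u = v := by
      intro v hv
      have hmap : W.map c = W := by
        refine Submodule.eq_of_le_of_finrank_eq ?_ ?_
        · rintro _ ⟨v, hv, rfl⟩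
          exact hcWW v hv
        · have h1 : Function.Injective (c.domRestrict W) := by
            rw [← LinearMap.ker_eq_bot, LinearMap.ker_eq_bot']
            rintro ⟨v, hv⟩ h0
            exact Subtype.ext (hcinj v (hW1 hv) h0)
          have h2 := LinearMap.finrank_range_of_inj h1
          rw [LinearMap.range_domRestrict] at h2
          exact h2
      rw [← hmap] at hv
      exact hv
    have hqcv : ∀ v ∈ V₁, q (c v) = v := by
      intro v hv
      have h1 : c' v = c v := by rw [hc'v, hπ1 v hv, sub_self, add_zero]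
      rw [← h1, ← Module.End.mul_apply, hq1, Module.End.one_apply]
    have hqWW : ∀ v ∈ W, q v ∈ W := by
      intro v hv
      obtain ⟨u, hu, rfl⟩ := hsurj v hv
      rw [hqcv u (hW1 hu)]
      exact hu
    have hcqW : ∀ v ∈ W, c (q v) = v := by
      intro v hv
      obtain ⟨u, hu, rfl⟩ := hsurj v hv
      rw [hqcv u (hW1 hu)]
    exact split_of_trace ρ hy hy' hA hWy hWy' hpC hp1 hpW fun T hT hr =>
      trace_zero ρ hy hy' hee hey hye hctr hqC hqe heWW hqWW hcqW hpC hp1 hpW hT hr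
  · intro v hv hyv
    -- `c` is nilpotent on `V₂`
    have h1 : IsNilpotent (c * (1 - π)) := by
      refine ⟨n, ?_⟩
      have h2 : Commute c (1 - π) := by
        refine Commute.sub_right (Commute.one_right c) ?_
        exact hπc
      rw [h2.mul_pow]
      ext u
      rw [Module.End.mul_apply]
      obtain ⟨m, hm⟩ : ∃ m, n = m + 1 := ⟨n - 1, by omega⟩
      have h3 : ∀ m : ℕ, ∀ u, ((1 - π) ^ (m + 1)) u ∈ V₂ := by
        intro m u
        rw [pow_succ', Module.End.mul_apply, LinearMap.sub_apply, Module.End.one_apply]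
        exact hπR _
      have h4 := h3 m u
      rw [← hm, hV₂, LinearMap.mem_ker] at h4
      rw [h4, LinearMap.zero_apply]
    have h2 : LinearMap.trace K V (c * (1 - π)) = 0 :=
      (LinearMap.isNilpotent_trace_of_isNilpotent h1).eq_zero
    have h3 : (1 - π) ∈ commutant ρ A := Submodule.sub_mem _ (one_mem_commutant ρ) hπC
    rw [hctr _ h3] at h2
    have hππ : π * π = π := by
      ext u
      exact hπ1 _ (hπV u)
    have h4 : e * (1 - π) = 0 := by
      refine eq_zero_of_trace (T := 1) ?_ (by rw [mul_one]; exact h2)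
      have h5 : (1 - π) * e = e * (1 - π) := by rw [sub_mul, mul_sub, one_mul, mul_one, hπe]
      have h6 : (1 - π) * (1 - π) = 1 - π := by
        rw [mul_sub, mul_one, sub_mul, one_mul, hππ, sub_self, sub_zero]
      calc e * (1 - π) * 1 * (e * (1 - π)) = e * ((1 - π) * e) * (1 - π) := by
            simp only [mul_assoc, mul_one, one_mul]
        _ = (e * e) * ((1 - π) * (1 - π)) := by rw [h5]; simp only [mul_assoc]
        _ = e * (1 - π) := by rw [hee, h6]
    have h5 := LinearMap.congr_fun h4 v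
    rw [Module.End.mul_apply, LinearMap.sub_apply, Module.End.one_apply, hπ0 v hv, sub_zero,
      LinearMap.zero_apply] at h5
    rw [← h5, he1 v (by rw [LinearMap.mem_ker, hDv, hyv, sub_self])]

end Pool.Agent.Helper40.LL
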