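import Pool.Agent.Helper40.ZO.Ineq
import Pool.Agent.Helper40.LL.Alg

/-!
# Semicontinuity of the multiplicity (helper40)
-/

set_option autoImplicit false

namespace Pool.Agent.Helper40.LL

open Polynomial Pool.Agent.Helper40.ZO

variable {K V : Type*} [Field K] [AddCommGroup V] [Module K V] [FiniteDimensional K V]

/-- The rank of `p(A) R` is lower semicontinuous. -/
theorem rank_open {n : ℕ} (b : Module.Basis (Fin n) K V) (p : K[X]) (R A₀ : Module.End K V) :
    ∃ E : MvPolynomial (Fin n × Fin n) K, val (LinearMap.toMatrix b b A₀) E ≠ 0 ∧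
      ∀ A : Module.End K V, val (LinearMap.toMatrix b b A) E ≠ 0 →
        Module.finrank K (LinearMap.range (aeval A₀ p * R)) ≤
          Module.finrank K (LinearMap.range (aeval A p * R)) := by
  let φ : Module.End K V ≃ₐ[K] Mat n K := LinearMap.toMatrixAlgEquiv b
  have hφ : ∀ A, φ A = LinearMap.toMatrix b b A := fun A => rfl
  obtain ⟨k, hk⟩ : ∃ k, k = Module.finrank K (LinearMap.range (aeval A₀ p * R)) := ⟨_, rfl⟩
  let w := Module.finBasisOfFinrankEq K (LinearMap.range (aeval A₀ p * R)) hk.symm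
  have hv : ∀ j, ∃ v, (aeval A₀ p * R) v = (w j : V) := fun j => (w j).2
  choose v hv using hv
  have hli : LinearIndependent K (fun j : Fin k => aeval A₀ p (R (v j))) := by
    have h1 : (fun j : Fin k => aeval A₀ p (R (v j))) =
        (LinearMap.range (aeval A₀ p * R)).subtype ∘ w := by
      funext j
      exact hv j
    rw [h1]
    exact w.linearIndependent.map' _ (Submodule.ker_subtype _)
  obtain ⟨ψ, hψ⟩ := exists_coord hli
  obtain ⟨E, hE⟩ := exists_val_det (n := n) (r := k)
    (fun M => Matrix.of fun i j : Fin k => ψ (φ.symm (aeval M p) (R (v j))) i) (by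
      intro i j
      obtain ⟨g, hg⟩ := exists_val_aeval
        ((LinearMap.proj i : (Fin k → K) →ₗ[K] K).comp
          (ψ.comp ((LinearMap.applyₗ (R (v j))).comp φ.symm.toLinearMap))) p
      exact ⟨g, fun M => by rw [hg]; rfl⟩)
  have hEval : ∀ A : Module.End K V, val (LinearMap.toMatrix b b A) E =
      (Matrix.of fun i j : Fin k => ψ (aeval A p (R (v j))) i).det := by
    intro A
    rw [hE, ← hφ]
    congr 1
    ext i j
    rw [Matrix.of_apply, Matrix.of_apply]
    have h1 : φ.symm (aeval (φ A) p) = aeval A p := by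
      have h2 : aeval (φ A) p = φ (aeval A p) := aeval_algHom_apply φ.toAlgHom A p
      rw [h2]
      exact φ.symm_apply_apply _
    rw [h1]
  refine ⟨E, ?_, ?_⟩
  · rw [hEval]
    have h1 : (Matrix.of fun i j : Fin k => ψ (aeval A₀ p (R (v j))) i) = 1 := by
      ext i j
      rw [Matrix.of_apply, hψ, Matrix.one_apply, Pi.single_apply]
    rw [h1, Matrix.det_one]
    exact one_ne_zero
  · intro A hA
    rw [hEval] at hA
    rw [← hk]
    by_contra hlt
    push Not at hlt
    apply hA
    rw [← Matrix.exists_mulVec_eq_zero_iff]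
    have hdep : ¬ LinearIndependent K (fun j : Fin k =>
        (⟨(aeval A p * R) (v j), ⟨v j, rfl⟩⟩ : LinearMap.range (aeval A p * R))) := by
      intro hli'
      have h1 := hli'.fintype_card_le_finrank
      rw [Fintype.card_fin] at h1
      omega
    rw [Fintype.not_linearIndependent_iff] at hdep
    obtain ⟨c, hc, i₀, hi₀⟩ := hdep
    refine ⟨c, fun h0 => hi₀ (by rw [h0]; rfl), ?_⟩
    have h1 : ∑ j, c j • aeval A p (R (v j)) = 0 := by
      have h2 := congrArg Subtype.val hc
      rw [Submodule.coe_sum] at h2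
      simpa using h2
    have h2 := congrArg ψ h1
    rw [map_sum, map_zero] at h2
    ext i
    have h3 := congrFun h2 i
    rw [Finset.sum_apply, Pi.zero_apply] at h3
    rw [Matrix.mulVec, dotProduct, Pi.zero_apply, ← h3]
    refine Finset.sum_congr rfl fun j _ => ?_
    rw [map_smul, Pi.smul_apply, smul_eq_mul, Matrix.of_apply, mul_comm]

/-- The dimension of the kernel on a subspace. -/
theorem finrank_ker_inf (B R : Module.End K V) {U : Submodule K V} (hR : ∀ v, R v ∈ U)
    (hR1 : ∀ v ∈ U, R v = v) :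
    Module.finrank K (LinearMap.range (B * R)) +
      Module.finrank K (LinearMap.ker B ⊓ U : Submodule K V) = Module.finrank K U := by
  have h1 : LinearMap.range (B * R) = LinearMap.range (B.domRestrict U) := by
    ext u
    constructor
    · rintro ⟨v, rfl⟩
      exact ⟨⟨R v, hR v⟩, rfl⟩
    · rintro ⟨⟨v, hv⟩, rfl⟩
      refine ⟨v, ?_⟩
      rw [Module.End.mul_apply, hR1 v hv]
      rfl
  have h2 : (LinearMap.ker (B.domRestrict U)).map U.subtype = LinearMap.ker B ⊓ U := by
    ext u
    constructor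
    · rintro ⟨⟨v, hv⟩, h, rfl⟩
      exact ⟨h, hv⟩
    · rintro ⟨h, hv⟩
      exact ⟨⟨u, hv⟩, h, rfl⟩
  have h3 := LinearMap.finrank_range_add_finrank_ker (B.domRestrict U)
  have h4 : Module.finrank K (LinearMap.ker (B.domRestrict U)) =
      Module.finrank K (LinearMap.ker B ⊓ U : Submodule K V) := by
    rw [← h2]
    exact (LinearEquiv.finrank_eq (Submodule.equivMapOfInjective U.subtype
      U.injective_subtype _))
  rw [h1, ← h4]
  exact h3

/-- The dimension of the kernel of `p(A)` on a subspace is upper semicontinuous. -/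
theorem ker_open {n : ℕ} (b : Module.Basis (Fin n) K V) (p : K[X]) (U : Submodule K V)
    (A₀ : Module.End K V) :
    ∃ E : MvPolynomial (Fin n × Fin n) K, val (LinearMap.toMatrix b b A₀) E ≠ 0 ∧
      ∀ A : Module.End K V, val (LinearMap.toMatrix b b A) E ≠ 0 →
        Module.finrank K (LinearMap.ker (aeval A p) ⊓ U : Submodule K V) ≤
          Module.finrank K (LinearMap.ker (aeval A₀ p) ⊓ U : Submodule K V) := by
  obtain ⟨U', hU'⟩ := U.exists_isCompl
  obtain ⟨R, hR1, -, hR, -, -⟩ := exists_projection hU'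
  obtain ⟨E, h1, h2⟩ := rank_open b p R A₀
  refine ⟨E, h1, fun A hA => ?_⟩
  have h3 := h2 A hA
  have h4 := finrank_ker_inf (aeval A p) R hR hR1
  have h5 := finrank_ker_inf (aeval A₀ p) R hR hR1
  omega

theorem mult_eq (A : Module.End K V) (l : K) {N : ℕ} (hN : Module.finrank K V ≤ N) :
    A.charpoly.rootMultiplicity l =
      Module.finrank K (LinearMap.ker (aeval A ((X - C l) ^ N))) := by
  rw [← LinearMap.finrank_maxGenEigenspace_eq, Module.End.maxGenEigenspace_eq_genEigenspace_finrank,
    ← Module.End.genEigenspace_eq_genEigenspace_finrank_of_le A l hN, Module.End.genEigenspace_nat,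
    map_pow, map_sub, aeval_X, aeval_C]
  rfl

/-- The multiplicity of the restriction. -/
theorem mult_restrict {A : Module.End K V} {U : Submodule K V} (hU : ∀ v ∈ U, A v ∈ U) (l : K)
    {N : ℕ} (hN : Module.finrank K V ≤ N) :
    (A.restrict hU).charpoly.rootMultiplicity l =
      Module.finrank K (LinearMap.ker (aeval A ((X - C l) ^ N)) ⊓ U : Submodule K V) := by
  rw [mult_eq _ _ ((Submodule.finrank_le U).trans hN)]
  have h0 : ∀ u : U, ((aeval (A.restrict hU) (X - C l) u : U) : V) = aeval A (X - C l) u := by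
    intro u
    rw [map_sub, aeval_X, aeval_C, map_sub, aeval_X, aeval_C]
    rfl
  have h1 : ∀ (k : ℕ) (u : U), ((aeval (A.restrict hU) ((X - C l) ^ k) u : U) : V) =
      aeval A ((X - C l) ^ k) u := by
    intro k
    induction k with
    | zero =>
      intro u
      rw [pow_zero, map_one, map_one]
      rfl
    | succ k ih =>
      intro u
      rw [pow_succ, map_mul, map_mul, Module.End.mul_apply, Module.End.mul_apply, ih, h0]
  have h2 : (LinearMap.ker (aeval (A.restrict hU) ((X - C l) ^ N))).map U.subtype =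
      LinearMap.ker (aeval A ((X - C l) ^ N)) ⊓ U := by
    ext u
    constructor
    · rintro ⟨⟨v, hv⟩, h, rfl⟩
      refine ⟨?_, hv⟩
      have h3 := h1 N ⟨v, hv⟩
      rw [LinearMap.mem_ker.1 h] at h3
      exact h3.symm
    · rintro ⟨h, hv⟩
      refine ⟨⟨u, hv⟩, ?_, rfl⟩
      have h3 := h1 N ⟨u, hv⟩
      exact Subtype.ext (h3.trans (LinearMap.mem_ker.1 h))
  rw [← h2]
  exact (LinearEquiv.finrank_eq (Submodule.equivMapOfInjective U.subtype
      U.injective_subtype _))

/-- The kernel splits. -/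
theorem ker_split {B : Module.End K V} {U₁ U₂ : Submodule K V} (hU : IsCompl U₁ U₂)
    (h1 : ∀ v ∈ U₁, B v ∈ U₁) (h2 : ∀ v ∈ U₂, B v ∈ U₂) :
    Module.finrank K (LinearMap.ker B) =
      Module.finrank K (LinearMap.ker B ⊓ U₁ : Submodule K V) +
        Module.finrank K (LinearMap.ker B ⊓ U₂ : Submodule K V) := by
  have h3 : LinearMap.ker B = (LinearMap.ker B ⊓ U₁) ⊔ (LinearMap.ker B ⊓ U₂) := by
    refine le_antisymm ?_ (sup_le inf_le_left inf_le_left)
    intro v hv
    obtain ⟨a, ha, c, hc, rfl⟩ := Submodule.mem_sup.1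
      (show v ∈ U₁ ⊔ U₂ by rw [hU.sup_eq_top]; trivial)
    rw [LinearMap.mem_ker, map_add] at hv
    have h4 : B a = 0 := by
      have h5 : B a ∈ U₁ ⊓ U₂ := ⟨h1 a ha, by
        rw [eq_neg_of_add_eq_zero_left hv]
        exact U₂.neg_mem (h2 c hc)⟩
      rwa [hU.inf_eq_bot, Submodule.mem_bot] at h5
    rw [h4, zero_add] at hv
    exact Submodule.add_mem_sup ⟨h4, ha⟩ ⟨hv, hc⟩
  have h4 := Submodule.finrank_sup_add_finrank_inf_eq (LinearMap.ker B ⊓ U₁)
    (LinearMap.ker B ⊓ U₂)
  have h5 : (LinearMap.ker B ⊓ U₁) ⊓ (LinearMap.ker B ⊓ U₂) = ⊥ := by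
    rw [eq_bot_iff, ← hU.inf_eq_bot]
    exact inf_le_inf inf_le_right inf_le_right
  rw [h5, finrank_bot, add_zero, ← h3] at h4
  exact h4

end Pool.Agent.Helper40.LL
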